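import Pool.Agent.R68.GQ.FamB

/-!
# Project GQ (helper444, MP_c22ba5_pr), job GQ-FA: the family `|s|^p`, `p ≥ 4`
-/

open MeasureTheory ProbabilityTheory Real

namespace Pool.Agent.R68.GQ

open Pool.Agent.R444.GQ

theorem cont_abs_rpow {q : ℝ} (hq : 0 ≤ q) : Continuous (fun s : ℝ => |s| ^ q) :=
  continuous_abs.rpow_const (fun _ => Or.inr hq)

theorem cpg_abs_rpow {q : ℝ} (hq : 0 ≤ q) : CPG (fun s => |s| ^ q) := by
  refine ⟨cont_abs_rpow hq, 1, ⌈q⌉₊, fun s => ?_⟩
  have h0 : 0 ≤ |s| ^ q := Real.rpow_nonneg (abs_nonneg s) q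
  rw [abs_of_nonneg h0, one_mul]
  calc |s| ^ q ≤ (1 + s ^ 2) ^ q := Real.rpow_le_rpow (abs_nonneg s) (abs_le_T s) hq
    _ ≤ (1 + s ^ 2) ^ ((⌈q⌉₊ : ℕ) : ℝ) := Real.rpow_le_rpow_of_exponent_le (one_le_T s) (Nat.le_ceil q)
    _ = (1 + s ^ 2) ^ ⌈q⌉₊ := Real.rpow_natCast _ _

theorem deriv_abs_rpow_mul {q : ℝ} (hq : 0 ≤ q) (s : ℝ) :
    HasDerivAt (fun s : ℝ => |s| ^ q * s) ((q + 1) * |s| ^ q) s := by
  rcases eq_or_ne s 0 with rfl | hs
  · have hval : (q + 1) * |(0 : ℝ)| ^ q = |(0 : ℝ)| ^ q := by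
      rw [abs_zero]
      rcases eq_or_lt_of_le hq with h | h
      · rw [← h]; simp
      · rw [Real.zero_rpow h.ne']; simp
    rw [hval, hasDerivAt_iff_tendsto_slope_zero]
    have h1 : Filter.Tendsto (fun t : ℝ => |t| ^ q) (nhdsWithin 0 {0}ᶜ) (nhds (|(0 : ℝ)| ^ q)) :=
      ((cont_abs_rpow hq).tendsto 0).mono_left nhdsWithin_le_nhds
    refine h1.congr' ?_
    filter_upwards [self_mem_nhdsWithin] with t ht
    have ht' : t ≠ 0 := ht
    simp only [zero_add, mul_zero, sub_zero, smul_eq_mul]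
    field_simp
  · have h1 := (hasDerivAt_abs hs).rpow_const (p := q) (Or.inl (abs_ne_zero.2 hs))
    have h2 := h1.mul (hasDerivAt_id s)
    refine h2.congr_deriv ?_
    have h3 : (SignType.sign s : ℝ) * s = |s| := sign_mul_self s
    have h4 : |s| ^ (q - 1) * |s| = |s| ^ q := by
      have := Real.rpow_add_one (abs_ne_zero.2 hs) (q - 1)
      rw [sub_add_cancel] at this
      exact this.symm
    simp only [id]
    calc (SignType.sign s : ℝ) * q * |s| ^ (q - 1) * s + |s| ^ q * 1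
        = q * (|s| ^ (q - 1) * ((SignType.sign s : ℝ) * s)) + |s| ^ q := by ring
      _ = (q + 1) * |s| ^ q := by rw [h3, h4]; ring

theorem strictMono_abs_rpow_mul {q : ℝ} (hq : 0 ≤ q) : StrictMono (fun s : ℝ => |s| ^ q * s) := by
  refine strictMono_of_odd_strictMonoOn_nonneg (fun s => ?_) ?_
  · rw [abs_neg, mul_neg]
  · intro a ha b hb hab
    have ha' : 0 ≤ a := ha
    have hb' : 0 < b := lt_of_le_of_lt ha' hab
    simp only
    rw [abs_of_nonneg ha', abs_of_pos hb']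
    have h1 : a ^ q ≤ b ^ q := Real.rpow_le_rpow ha' hab.le hq
    have h2 : 0 < b ^ q := Real.rpow_pos_of_pos hb' q
    nlinarith

theorem famA_thm (hpol : S_polar) (hL : S_L1A) : S_famA := by
  intro p hp
  have hp0 : 0 < p := by linarith
  have hp1 : 0 < p - 1 := by linarith
  have hp2 : 0 < p - 2 := by linarith
  have d2 : ∀ s : ℝ, HasDerivAt (fun s : ℝ => |s| ^ (p - 2)) ((p - 2) * (|s| ^ (p - 4) * s)) s := by
    intro s
    have h := hasDerivAt_abs_rpow s (p := p - 2) (by linarith)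
    refine h.congr_deriv ?_
    rw [show p - 2 - 2 = p - 4 by ring, mul_assoc]
  have g2 : CPG (fun s : ℝ => |s| ^ (p - 2)) := cpg_abs_rpow hp2.le
  have gw : CPG (fun s : ℝ => (p - 2) * (|s| ^ (p - 4) * s)) :=
    cpg_mul (cpg_const (p - 2)) (cpg_mul (cpg_abs_rpow (by linarith)) cpg_id)
  have oddw : ∀ s : ℝ, (p - 2) * (|(-s)| ^ (p - 4) * (-s)) = - ((p - 2) * (|s| ^ (p - 4) * s)) := by
    intro s
    rw [abs_neg]
    ring
  refine
    { even := ?_, d0 := ?_, d1 := ?_, d2 := d2, d3 := ?_, g0 := ?_, g1 := ?_, g2 := g2,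
      g3 := ⟨gw, oddw, ?_⟩, g4 := ?_, L1 := ?_ }
  · intro s
    simp only [abs_neg]
  · intro s
    have h := (hasDerivAt_abs_rpow s (p := p) (by linarith)).div_const (p * (p - 1))
    refine h.congr_deriv ?_
    field_simp
  · intro s
    have h := (deriv_abs_rpow_mul hp2.le s).div_const (p - 1)
    refine h.congr_deriv ?_
    rw [show p - 2 + 1 = p - 1 by ring]
    field_simp
  · intro s
    have h := (deriv_abs_rpow_mul (q := p - 4) (by linarith) s).const_mul (p - 2)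
    refine h.congr_deriv ?_
    ring
  · refine cpg_congr (cpg_mul (cpg_abs_rpow hp0.le) (cpg_const (1 / (p * (p - 1))))) (fun s => ?_)
    ring
  · refine cpg_congr (cpg_mul (cpg_mul (cpg_abs_rpow hp2.le) cpg_id) (cpg_const (1 / (p - 1))))
      (fun s => ?_)
    ring
  · intro s hs
    have h1 : 0 < |s| ^ (p - 4) := Real.rpow_pos_of_pos (abs_pos.2 hs.ne') _
    positivity
  · exact cpg_mul (cpg_const ((p - 2) * (p - 3))) (cpg_abs_rpow (by linarith))
  · intro α β hβ hαβ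
    rw [hpol _ g2 α β]
    refine mul_pos (by positivity) (hL _ _ g2 gw (fun s => ?_) d2 oddw ?_ α β hβ hαβ)
    · rw [abs_neg]
    · exact (strictMono_abs_rpow_mul (by linarith)).const_mul hp2

end Pool.Agent.R68.GQ
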