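import Pool.Agent.R444.GQ.Stm

/-!
# Project GQ (helper444, MP_c22ba5_pr), jobs GQ-FB and GQ-FA: the two families of test functions
-/

open MeasureTheory ProbabilityTheory Real

namespace Pool.Agent.R68.GQ

open Pool.Agent.R444.GQ

theorem one_le_T (s : ℝ) : 1 ≤ 1 + s ^ 2 := by nlinarith [sq_nonneg s]

theorem T_pos (s : ℝ) : 0 < 1 + s ^ 2 := by nlinarith [sq_nonneg s]

theorem abs_le_T (s : ℝ) : |s| ≤ 1 + s ^ 2 := by
  rw [abs_le]
  constructor <;> nlinarith [sq_nonneg (s - 1), sq_nonneg (s + 1)]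

theorem cpg_mul {f g : ℝ → ℝ} (hf : CPG f) (hg : CPG g) : CPG (fun s => f s * g s) := by
  obtain ⟨hf1, C, N, hf2⟩ := hf
  obtain ⟨hg1, D, M, hg2⟩ := hg
  refine ⟨hf1.mul hg1, C * D, N + M, fun s => ?_⟩
  rw [abs_mul, pow_add]
  have h1 := mul_le_mul (hf2 s) (hg2 s) (abs_nonneg _) ((abs_nonneg _).trans (hf2 s))
  calc |f s| * |g s| ≤ C * (1 + s ^ 2) ^ N * (D * (1 + s ^ 2) ^ M) := h1
    _ = C * D * ((1 + s ^ 2) ^ N * (1 + s ^ 2) ^ M) := by ring

theorem cpg_const (c : ℝ) : CPG (fun _ => c) :=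
  ⟨continuous_const, |c|, 0, fun s => by simp⟩

theorem cpg_id : CPG (fun s => s) :=
  ⟨continuous_id, 1, 1, fun s => by simpa using abs_le_T s⟩

theorem cpg_add {f g : ℝ → ℝ} (hf : CPG f) (hg : CPG g) : CPG (fun s => f s + g s) := by
  obtain ⟨hf1, C, N, hf2⟩ := hf
  obtain ⟨hg1, D, M, hg2⟩ := hg
  refine ⟨hf1.add hg1, |C| + |D|, N + M, fun s => ?_⟩
  have hT := one_le_T s
  have e1 : (1 + s ^ 2) ^ N ≤ (1 + s ^ 2) ^ (N + M) := pow_le_pow_right₀ hT (by omega)
  have e2 : (1 + s ^ 2) ^ M ≤ (1 + s ^ 2) ^ (N + M) := pow_le_pow_right₀ hT (by omega)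
  have e3 : C * (1 + s ^ 2) ^ N ≤ |C| * (1 + s ^ 2) ^ (N + M) :=
    (mul_le_mul_of_nonneg_right (le_abs_self C) (by positivity)).trans
      (mul_le_mul_of_nonneg_left e1 (abs_nonneg _))
  have e4 : D * (1 + s ^ 2) ^ M ≤ |D| * (1 + s ^ 2) ^ (N + M) :=
    (mul_le_mul_of_nonneg_right (le_abs_self D) (by positivity)).trans
      (mul_le_mul_of_nonneg_left e2 (abs_nonneg _))
  have e5 := abs_add_le (f s) (g s)
  have e6 := hf2 s
  have e7 := hg2 s
  rw [add_mul]
  linarith

theorem log_cont : Continuous (fun s : ℝ => Real.log (1 + s ^ 2)) :=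
  Continuous.log (by fun_prop) (fun s => (T_pos s).ne')

theorem cpg_log : CPG (fun s => Real.log (1 + s ^ 2)) := by
  refine ⟨log_cont, 1, 1, fun s => ?_⟩
  have h1 : 0 ≤ Real.log (1 + s ^ 2) := Real.log_nonneg (one_le_T s)
  have h2 := Real.log_le_sub_one_of_pos (T_pos s)
  rw [abs_of_nonneg h1]
  linarith

theorem cpg_arctan : CPG (fun s => Real.arctan s) := by
  refine ⟨Real.continuous_arctan, 2, 0, fun s => ?_⟩
  have h1 := Real.arctan_lt_pi_div_two s
  have h2 := Real.neg_pi_div_two_lt_arctan s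
  have h3 := Real.pi_le_four
  rw [pow_zero, mul_one, abs_le]
  constructor <;> linarith

theorem cpg_congr {f g : ℝ → ℝ} (hf : CPG f) (h : ∀ s, f s = g s) : CPG g := by
  have : f = g := funext h
  rw [← this]
  exact hf

theorem famB_thm (hpol : S_polar) (hL : S_L1B) : S_famB := by
  have hT : ∀ s : ℝ, HasDerivAt (fun s : ℝ => 1 + s ^ 2) (2 * s) s := by
    intro s
    have := (hasDerivAt_pow 2 s).const_add 1
    simpa using this
  have hlog : ∀ s : ℝ, HasDerivAt (fun s : ℝ => Real.log (1 + s ^ 2)) (2 * s / (1 + s ^ 2)) s :=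
    fun s => (hT s).log (T_pos s).ne'
  refine
    { even := ?_, d0 := ?_, d1 := ?_, d2 := hlog, d3 := ?_, g0 := ?_, g1 := ?_, g2 := cpg_log,
      g3 := ?_, g4 := ?_, L1 := ?_ }
  · intro s
    simp only [fB]
    rw [Real.arctan_neg]
    ring_nf
  · intro s
    have h1 : HasDerivAt (fun s : ℝ => (s ^ 2 - 1) / 2) s s := by
      have := ((hasDerivAt_pow 2 s).sub_const 1).div_const 2
      refine this.congr_deriv ?_
      simp
    have h2 := h1.mul (hlog s)
    have h3 : HasDerivAt (fun s : ℝ => 2 * s) 2 s := by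
      simpa using (hasDerivAt_id s).const_mul 2
    have h4 := h3.mul (Real.hasDerivAt_arctan s)
    have h5 : HasDerivAt (fun s : ℝ => 3 / 2 * s ^ 2) (3 * s) s := by
      refine ((hasDerivAt_pow 2 s).const_mul (3 / 2)).congr_deriv ?_
      push_cast
      ring
    have h6 := (h2.add h4).sub h5
    refine h6.congr_deriv ?_
    have := (T_pos s).ne'
    field_simp
    ring
  · intro s
    have h2 := (hasDerivAt_id s).mul (hlog s)
    have h4 := (Real.hasDerivAt_arctan s).const_mul 2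
    have h5 := (hasDerivAt_id s).const_mul 2
    have h6 := (h2.add h4).sub h5
    refine h6.congr_deriv ?_
    have := (T_pos s).ne'
    simp only [id]
    field_simp
    ring
  · intro s
    have h1 : HasDerivAt (fun s : ℝ => 2 * s) 2 s := by
      simpa using (hasDerivAt_id s).const_mul 2
    have h2 := h1.div (hT s) (T_pos s).ne'
    refine h2.congr_deriv ?_
    congr 1
    ring
  · refine cpg_congr (cpg_add (cpg_add (cpg_mul (cpg_mul (cpg_const (1 / 2))
      (cpg_add (cpg_mul cpg_id cpg_id) (cpg_const (-1)))) cpg_log)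
      (cpg_mul (cpg_mul (cpg_const 2) cpg_id) cpg_arctan))
      (cpg_mul (cpg_const (-3 / 2)) (cpg_mul cpg_id cpg_id))) (fun s => ?_)
    simp only [fB]
    ring
  · refine cpg_congr (cpg_add (cpg_add (cpg_mul cpg_id cpg_log)
      (cpg_mul (cpg_const 2) cpg_arctan))
      (cpg_mul (cpg_const (-2)) cpg_id)) (fun s => ?_)
    ring
  · refine ⟨⟨?_, 1, 0, fun s => ?_⟩, fun s => ?_, fun s hs => ?_⟩
    · exact Continuous.div (by fun_prop) (by fun_prop) (fun s => (T_pos s).ne')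
    · rw [pow_zero, mul_one, abs_div, abs_of_pos (T_pos s), div_le_one (T_pos s), abs_mul,
        abs_of_pos (by norm_num : (0 : ℝ) < 2)]
      nlinarith [sq_nonneg (|s| - 1), sq_abs s]
    · rw [neg_sq, mul_neg, neg_div]
    · exact div_pos (by linarith) (T_pos s)
  · refine ⟨?_, 2, 0, fun s => ?_⟩
    · exact Continuous.div (by fun_prop) (by fun_prop) (fun s => (pow_pos (T_pos s) 2).ne')
    · rw [pow_zero, mul_one, abs_div, abs_of_pos (pow_pos (T_pos s) 2),
        div_le_iff₀ (pow_pos (T_pos s) 2), abs_le]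
      constructor <;> nlinarith [sq_nonneg s, sq_nonneg (s ^ 2)]
  · intro α β hβ hαβ
    rw [hpol _ cpg_log α β]
    exact mul_pos (by positivity) (hL α β hβ hαβ)

end Pool.Agent.R68.GQ
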