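import Pool.Agent.R68.GQ.FamB

/-!
# Project GQ (helper444, MP_c22ba5_pr), job GQ-MIX: the mixture representation
-/

open MeasureTheory ProbabilityTheory Real

namespace Pool.Agent.R68.GQ

open Pool.Agent.R444.GQ

theorem hasDerivAt_T (s : ℝ) : HasDerivAt (fun s : ℝ => 1 + s ^ 2) (2 * s) s := by
  have := (hasDerivAt_pow 2 s).const_add 1
  simpa using this

theorem hasDerivAt_lg (s : ℝ) :
    HasDerivAt (fun s : ℝ => Real.log (1 + s ^ 2)) (2 * s / (1 + s ^ 2)) s :=
  (hasDerivAt_T s).log (T_pos s).ne'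

/-- the derivative of `fB` -/
noncomputable def gB (s : ℝ) : ℝ := s * Real.log (1 + s ^ 2) + 2 * Real.arctan s - 2 * s

theorem hasDerivAt_fB (s : ℝ) : HasDerivAt fB (gB s) s := by
  have h1 : HasDerivAt (fun s : ℝ => (s ^ 2 - 1) / 2) s s := by
    have := ((hasDerivAt_pow 2 s).sub_const 1).div_const 2
    refine this.congr_deriv ?_
    simp
  have h2 := h1.mul (hasDerivAt_lg s)
  have h3 : HasDerivAt (fun s : ℝ => 2 * s) 2 s := by
    simpa using (hasDerivAt_id s).const_mul 2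
  have h4 := h3.mul (Real.hasDerivAt_arctan s)
  have h5 : HasDerivAt (fun s : ℝ => 3 / 2 * s ^ 2) (3 * s) s := by
    refine ((hasDerivAt_pow 2 s).const_mul (3 / 2)).congr_deriv ?_
    push_cast
    ring
  have h6 := (h2.add h4).sub h5
  refine h6.congr_deriv ?_
  have := (T_pos s).ne'
  unfold gB
  field_simp
  ring

theorem hasDerivAt_gB (s : ℝ) : HasDerivAt gB (Real.log (1 + s ^ 2)) s := by
  have h2 := (hasDerivAt_id s).mul (hasDerivAt_lg s)
  have h4 := (Real.hasDerivAt_arctan s).const_mul 2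
  have h5 := (hasDerivAt_id s).const_mul 2
  have h6 := (h2.add h4).sub h5
  refine h6.congr_deriv ?_
  have := (T_pos s).ne'
  simp only [id]
  field_simp
  ring

theorem mono_of_deriv {f f' : ℝ → ℝ} (hd : ∀ s, HasDerivAt f (f' s) s)
    (h : ∀ s, 0 < s → 0 ≤ f' s) (h0 : f 0 = 0) {s : ℝ} (hs : 0 ≤ s) : 0 ≤ f s := by
  have hm : MonotoneOn f (Set.Ici 0) := by
    refine monotoneOn_of_deriv_nonneg (convex_Ici 0)
      (fun x _ => (hd x).continuousAt.continuousWithinAt)
      (fun x _ => (hd x).differentiableAt.differentiableWithinAt) ?_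
    intro x hx
    rw [interior_Ici] at hx
    rw [(hd x).deriv]
    exact h x hx
  have := hm (Set.mem_Ici.2 le_rfl) (Set.mem_Ici.2 hs) hs
  rw [h0] at this
  exact this

theorem gB_zero : gB 0 = 0 := by simp [gB]

theorem fB_zero : fB 0 = 0 := by simp [fB]

theorem gB_nonneg {s : ℝ} (hs : 0 ≤ s) : 0 ≤ gB s :=
  mono_of_deriv hasDerivAt_gB (fun s _ => Real.log_nonneg (one_le_T s)) gB_zero hs

theorem fB_nonneg' {s : ℝ} (hs : 0 ≤ s) : 0 ≤ fB s :=
  mono_of_deriv hasDerivAt_fB (fun s hs => gB_nonneg hs.le) fB_zero hs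

theorem fB_neg (s : ℝ) : fB (-s) = fB s := by
  unfold fB
  rw [Real.arctan_neg]
  ring_nf

theorem fB_abs (s : ℝ) : fB s = fB |s| := by
  rcases abs_choice s with h | h <;> rw [h]
  rw [fB_neg]

theorem fB_nonneg (s : ℝ) : 0 ≤ fB s := by
  rw [fB_abs]
  exact fB_nonneg' (abs_nonneg s)

theorem gB_pos {s : ℝ} (hs : 0 < s) : 0 < gB s := by
  have hm : StrictMonoOn gB (Set.Ici 0) := by
    refine strictMonoOn_of_deriv_pos (convex_Ici 0)
      (fun x _ => (hasDerivAt_gB x).continuousAt.continuousWithinAt) ?_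
    intro x hx
    rw [interior_Ici] at hx
    rw [(hasDerivAt_gB x).deriv]
    have hx' : (0 : ℝ) < x := hx
    exact Real.log_pos (by nlinarith)
  have := hm (Set.mem_Ici.2 le_rfl) (Set.mem_Ici.2 hs.le) hs
  rw [gB_zero] at this
  exact this

theorem fB_pos {s : ℝ} (hs : 0 < s) : 0 < fB s := by
  have hm : StrictMonoOn fB (Set.Ici 0) := by
    refine strictMonoOn_of_deriv_pos (convex_Ici 0)
      (fun x _ => (hasDerivAt_fB x).continuousAt.continuousWithinAt) ?_
    intro x hx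
    rw [interior_Ici] at hx
    rw [(hasDerivAt_fB x).deriv]
    exact gB_pos hx
  have := hm (Set.mem_Ici.2 le_rfl) (Set.mem_Ici.2 hs.le) hs
  rw [fB_zero] at this
  exact this

theorem gB_le {s : ℝ} (hs : 0 ≤ s) : gB s ≤ s ^ 3 / 3 := by
  have hd : ∀ s : ℝ, HasDerivAt (fun s => s ^ 3 / 3 - gB s) (s ^ 2 - Real.log (1 + s ^ 2)) s := by
    intro s
    have h1 := ((hasDerivAt_pow 3 s).div_const 3).sub (hasDerivAt_gB s)
    refine h1.congr_deriv ?_
    push_cast
    ring
  have := mono_of_deriv hd (fun t _ => by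
    have := Real.log_le_sub_one_of_pos (T_pos t)
    linarith) (by rw [gB_zero]; norm_num) hs
  linarith

theorem fB_le {s : ℝ} (hs : 0 ≤ s) : fB s ≤ s ^ 4 / 12 := by
  have hd : ∀ s : ℝ, HasDerivAt (fun s => s ^ 4 / 12 - fB s) (s ^ 3 / 3 - gB s) s := by
    intro s
    have h1 := ((hasDerivAt_pow 4 s).div_const 12).sub (hasDerivAt_fB s)
    refine h1.congr_deriv ?_
    push_cast
    ring
  have := mono_of_deriv hd (fun s hs => by
    have := gB_le hs.le
    linarith) (by rw [fB_zero]; norm_num) hs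
  linarith

theorem fB_cont : Continuous fB :=
  continuous_iff_continuousAt.2 fun s => (hasDerivAt_fB s).continuousAt

theorem fB_le_large {ε : ℝ} (hε : 0 < ε) {x : ℝ} (hx : 1 ≤ x) :
    fB x ≤ (2 ^ ε / (2 * ε) + 4) * x ^ (2 + 2 * ε) := by
  have hx0 : 0 < x := by linarith
  have h1 : Real.log (1 + x ^ 2) ≤ (1 + x ^ 2) ^ ε / ε := Real.log_le_rpow_div (T_pos x).le hε
  have h2 : (1 + x ^ 2) ^ ε ≤ (2 * x ^ 2) ^ ε :=
    Real.rpow_le_rpow (T_pos x).le (by nlinarith) hε.le
  have h3 : (2 * x ^ 2) ^ ε = 2 ^ ε * x ^ (2 * ε) := by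
    rw [Real.mul_rpow (by norm_num) (by positivity), ← Real.rpow_natCast, ← Real.rpow_mul hx0.le]
    norm_num
  have h4 : x ^ (2 + 2 * ε) = x ^ 2 * x ^ (2 * ε) := by
    rw [Real.rpow_add hx0]
    norm_num
  have h5 : 1 ≤ x ^ (2 * ε) := Real.one_le_rpow hx (by positivity)
  have h6 : Real.log (1 + x ^ 2) ≤ 2 ^ ε / ε * x ^ (2 * ε) := by
    calc Real.log (1 + x ^ 2) ≤ (1 + x ^ 2) ^ ε / ε := h1
      _ ≤ (2 ^ ε * x ^ (2 * ε)) / ε := by rw [← h3]; gcongr
      _ = 2 ^ ε / ε * x ^ (2 * ε) := by ring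
  have h7 : Real.arctan x ≤ 2 := by
    have h1 := Real.arctan_lt_pi_div_two x
    have h3 := Real.pi_le_four
    linarith
  have h8 : 0 ≤ Real.log (1 + x ^ 2) := Real.log_nonneg (one_le_T x)
  unfold fB
  have h9 : (x ^ 2 - 1) / 2 * Real.log (1 + x ^ 2) ≤ x ^ 2 / 2 * (2 ^ ε / ε * x ^ (2 * ε)) := by
    calc (x ^ 2 - 1) / 2 * Real.log (1 + x ^ 2) ≤ x ^ 2 / 2 * Real.log (1 + x ^ 2) := by
          apply mul_le_mul_of_nonneg_right _ h8
          linarith
      _ ≤ x ^ 2 / 2 * (2 ^ ε / ε * x ^ (2 * ε)) := by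
          apply mul_le_mul_of_nonneg_left h6
          positivity
  have h10 : 2 * x * Real.arctan x ≤ 4 * (x ^ 2 * x ^ (2 * ε)) := by
    calc 2 * x * Real.arctan x ≤ 2 * x * 2 := by gcongr
      _ ≤ 4 * (x ^ 2 * 1) := by nlinarith
      _ ≤ 4 * (x ^ 2 * x ^ (2 * ε)) := by gcongr
  have h11 : (2 ^ ε / (2 * ε) + 4) * x ^ (2 + 2 * ε) =
      x ^ 2 / 2 * (2 ^ ε / ε * x ^ (2 * ε)) + 4 * (x ^ 2 * x ^ (2 * ε)) := by
    rw [h4]
    field_simp
  rw [h11]
  nlinarith [sq_nonneg x]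

theorem int_fB {p : ℝ} (h2 : 2 < p) (h4 : p < 4) :
    IntegrableOn (fun x : ℝ => fB x * x ^ (-p - 1)) (Set.Ioi 0) := by
  have hmeas : AEStronglyMeasurable (fun x : ℝ => fB x * x ^ (-p - 1)) volume :=
    (fB_cont.measurable.mul (measurable_id.pow_const (-p - 1))).aestronglyMeasurable
  rw [← Set.Ioc_union_Ioi_eq_Ioi (zero_le_one' ℝ)]
  refine IntegrableOn.union ?_ ?_
  · have h1 : IntegrableOn (fun x : ℝ => x ^ (3 - p)) (Set.Ioc 0 1) := by
      have := (intervalIntegral.intervalIntegrable_rpow' (a := 0) (b := 1) (r := 3 - p)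
        (by linarith))
      rwa [intervalIntegrable_iff_integrableOn_Ioc_of_le zero_le_one] at this
    refine Integrable.mono' h1 hmeas.restrict ?_
    rw [ae_restrict_iff' measurableSet_Ioc]
    refine Filter.Eventually.of_forall fun x hx => ?_
    have hx0 : 0 < x := hx.1
    have h5 : 0 ≤ x ^ (-p - 1) := Real.rpow_nonneg hx0.le _
    rw [Real.norm_eq_abs, abs_of_nonneg (mul_nonneg (fB_nonneg x) h5)]
    have h6 : x ^ (3 - p) = x ^ 4 * x ^ (-p - 1) := by
      have : x ^ (4 : ℕ) = x ^ (4 : ℝ) := by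
        have h := Real.rpow_natCast x 4
        push_cast at h
        exact h.symm
      rw [this, ← Real.rpow_add hx0]
      congr 1
      ring
    rw [h6]
    refine mul_le_mul_of_nonneg_right ?_ h5
    have := fB_le hx0.le
    have h7 : 0 ≤ x ^ 4 := by positivity
    linarith
  · obtain ⟨ε, hε⟩ : ∃ ε : ℝ, ε = (p - 2) / 4 := ⟨_, rfl⟩
    have hε0 : 0 < ε := by rw [hε]; linarith
    have h1 : IntegrableOn (fun x : ℝ => (2 ^ ε / (2 * ε) + 4) * x ^ (-(p / 2))) (Set.Ioi 1) :=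
      (integrableOn_Ioi_rpow_of_lt (by linarith) zero_lt_one).const_mul _
    refine Integrable.mono' h1 hmeas.restrict ?_
    rw [ae_restrict_iff' measurableSet_Ioi]
    refine Filter.Eventually.of_forall fun x hx => ?_
    have hx1 : (1 : ℝ) < x := hx
    have hx0 : 0 < x := by linarith
    have h5 : 0 ≤ x ^ (-p - 1) := Real.rpow_nonneg hx0.le _
    rw [Real.norm_eq_abs, abs_of_nonneg (mul_nonneg (fB_nonneg x) h5)]
    have h6 : x ^ (-(p / 2)) = x ^ (2 + 2 * ε) * x ^ (-p - 1) := by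
      rw [← Real.rpow_add hx0]
      congr 1
      rw [hε]
      ring
    rw [h6, ← mul_assoc]
    exact mul_le_mul_of_nonneg_right (fB_le_large hε0 hx1.le) h5

theorem mix_thm : S_mix := by
  intro p h2 h4
  have hint := int_fB h2 h4
  have hnn : ∀ x ∈ Set.Ioi (0 : ℝ), 0 ≤ fB x * x ^ (-p - 1) := fun x hx =>
    mul_nonneg (fB_nonneg x) (Real.rpow_nonneg (le_of_lt hx) _)
  refine ⟨∫ x in Set.Ioi (0 : ℝ), fB x * x ^ (-p - 1), ?_, fB_nonneg, ?_⟩
  · rw [setIntegral_pos_iff_support_of_nonneg_ae]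
    · have hsub : Set.Ioi (0 : ℝ) ⊆ Function.support (fun x : ℝ => fB x * x ^ (-p - 1)) ∩
          Set.Ioi 0 := by
        intro x hx
        refine ⟨?_, hx⟩
        rw [Function.mem_support]
        exact (mul_pos (fB_pos hx) (Real.rpow_pos_of_pos hx _)).ne'
      refine lt_of_lt_of_le ?_ (measure_mono hsub)
      rw [Real.volume_Ioi]
      exact ENNReal.zero_lt_top
    · rw [Filter.EventuallyLE, ae_restrict_iff' measurableSet_Ioi]
      exact Filter.Eventually.of_forall hnn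
    · exact hint
  · intro s
    rcases eq_or_ne s 0 with rfl | hs
    · simp only [mul_zero, fB_zero, zero_mul, abs_zero, ENNReal.ofReal_zero, lintegral_zero]
      rw [Real.zero_rpow (by linarith), mul_zero, ENNReal.ofReal_zero]
    · have ht : 0 < |s| := abs_pos.2 hs
      have hcongr : ∀ x ∈ Set.Ioi (0 : ℝ), fB (x * s) * x ^ (-p - 1) =
          (fun y => fB y * y ^ (-p - 1) * |s| ^ (p + 1)) (x * |s|) := by
        intro x hx
        have hx0 : (0 : ℝ) < x := hx
        simp only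
        rw [fB_abs (x * s), abs_mul, abs_of_pos hx0, Real.mul_rpow hx0.le ht.le]
        have h5 : |s| ^ (-p - 1) * |s| ^ (p + 1) = 1 := by
          rw [← Real.rpow_add ht]
          have : -p - 1 + (p + 1) = 0 := by ring
          rw [this, Real.rpow_zero]
        calc fB (x * |s|) * x ^ (-p - 1) = fB (x * |s|) * (x ^ (-p - 1) * 1) := by rw [mul_one]
          _ = fB (x * |s|) * (x ^ (-p - 1) * (|s| ^ (-p - 1) * |s| ^ (p + 1))) := by rw [h5]
          _ = fB (x * |s|) * (x ^ (-p - 1) * |s| ^ (-p - 1)) * |s| ^ (p + 1) := by ring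
      have hint2 : IntegrableOn (fun x : ℝ => fB (x * s) * x ^ (-p - 1)) (Set.Ioi 0) := by
        rw [integrableOn_congr_fun hcongr measurableSet_Ioi]
        rw [integrableOn_Ioi_comp_mul_right_iff
          (fun y => fB y * y ^ (-p - 1) * |s| ^ (p + 1)) 0 ht, zero_mul]
        exact hint.mul_const _
      have hval : ∫ x in Set.Ioi (0 : ℝ), fB (x * s) * x ^ (-p - 1) =
          (∫ x in Set.Ioi (0 : ℝ), fB x * x ^ (-p - 1)) * |s| ^ p := by
        rw [setIntegral_congr_fun measurableSet_Ioi hcongr]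
        rw [integral_comp_mul_right_Ioi (fun y => fB y * y ^ (-p - 1) * |s| ^ (p + 1)) 0 ht,
          zero_mul, integral_mul_const, smul_eq_mul]
        have h6 : |s|⁻¹ * |s| ^ (p + 1) = |s| ^ p := by
          rw [Real.rpow_add_one ht.ne']
          field_simp
        rw [← h6]
        ring
      rw [← hval, ofReal_integral_eq_lintegral_ofReal hint2]
      rw [Filter.EventuallyLE, ae_restrict_iff' measurableSet_Ioi]
      refine Filter.Eventually.of_forall fun x hx => ?_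
      exact mul_nonneg (fB_nonneg _) (Real.rpow_nonneg (le_of_lt hx) _)

end Pool.Agent.R68.GQ
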