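import Pool.Agent.R68.GQ.FamB

/-!
# Project GQ (helper444, MP_c22ba5_pr), job GQ-N: the chi-square laws
-/

open MeasureTheory ProbabilityTheory Real

namespace Pool.Agent.R68.GQ

open Pool.Agent.R444.GQ

theorem nu_pos {e : ℕ} (he : 1 ≤ e) : nu e = gammaMeasure ((e : ℝ) / 2) (1 / 2) :=
  if_neg (by omega)

theorem half_pos' {e : ℕ} (he : 1 ≤ e) : (0 : ℝ) < (e : ℝ) / 2 := by
  have : (1 : ℝ) ≤ e := by exact_mod_cast he
  linarith

theorem pdf_eq {e : ℕ} {y : ℝ} (hy : 0 < y) :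
    gammaPDFReal ((e : ℝ) / 2) (1 / 2) y = dens e y := by
  unfold gammaPDFReal dens
  rw [if_pos hy.le]
  congr 2
  ring

theorem toReal_pdf {e : ℕ} (he : 1 ≤ e) (y : ℝ) :
    (gammaPDF ((e : ℝ) / 2) (1 / 2) y).toReal = gammaPDFReal ((e : ℝ) / 2) (1 / 2) y :=
  ENNReal.toReal_ofReal (gammaPDFReal_nonneg (half_pos' he) (by norm_num) y)

theorem meas_pdf (a r : ℝ) : Measurable (gammaPDF a r) :=
  (measurable_gammaPDFReal a r).ennreal_ofReal

theorem pdf_lt_top (a r : ℝ) : ∀ᵐ y, gammaPDF a r y < ⊤ :=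
  Filter.Eventually.of_forall fun _ => ENNReal.ofReal_lt_top

theorem nu_dens : S_nu_dens := by
  intro e he φ
  rw [nu_pos he]
  unfold gammaMeasure
  rw [integral_withDensity_eq_integral_toReal_smul (meas_pdf _ _) (pdf_lt_top _ _)]
  rw [← setIntegral_eq_integral_of_forall_compl_eq_zero (s := Set.Ici 0), integral_Ici_eq_integral_Ioi]
  · refine setIntegral_congr_fun measurableSet_Ioi fun y hy => ?_
    have hy' : (0 : ℝ) < y := hy
    simp only [smul_eq_mul]
    have h := toReal_pdf he y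
    rw [pdf_eq hy'] at h
    rw [mul_comm]
    congr 1
  · intro y hy
    have hy' : y < 0 := by
      by_contra h
      exact hy (not_lt.1 h)
    have h0 : gammaPDF ((e : ℝ) / 2) (1 / 2) y = 0 := gammaPDF_of_neg hy'
    have h1 : (gammaPDF ((e : ℝ) / 2) (1 / 2) y).toReal • φ y = 0 := by
      rw [h0]; simp
    exact h1

/-- polynomials are dominated by the exponential -/
theorem poly_le_exp (N : ℕ) : ∃ K : ℝ, 0 ≤ K ∧ ∀ y : ℝ, 0 ≤ y →
    (1 + y ^ 2) ^ N ≤ K * Real.exp (y / 4) := by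
  refine ⟨4 ^ (2 * N) * (Nat.factorial (2 * N)) * Real.exp (1 / 4), by positivity, fun y hy => ?_⟩
  have h1 := Real.pow_div_factorial_le_exp (x := (1 + y) / 4) (by linarith) (2 * N)
  have h2 : (1 + y ^ 2) ^ N ≤ ((1 + y) ^ 2) ^ N := by
    apply pow_le_pow_left₀ (by positivity)
    nlinarith
  have h3 : Real.exp ((1 + y) / 4) = Real.exp (1 / 4) * Real.exp (y / 4) := by
    rw [← Real.exp_add]
    congr 1
    ring
  have h4 : (0 : ℝ) < (Nat.factorial (2 * N)) := by exact_mod_cast Nat.factorial_pos _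
  rw [div_pow, div_div, div_le_iff₀ (by positivity), h3] at h1
  calc (1 + y ^ 2) ^ N ≤ ((1 + y) ^ 2) ^ N := h2
    _ = (1 + y) ^ (2 * N) := by rw [← pow_mul]
    _ ≤ _ := h1
    _ = _ := by ring

theorem int_dens {φ : ℝ → ℝ} (hφ : CPG φ) {e : ℕ} (he : 1 ≤ e) :
    IntegrableOn (fun y => φ y * dens e y) (Set.Ioi 0) := by
  obtain ⟨hc, C, N, hb⟩ := hφ
  obtain ⟨K, hK0, hK⟩ := poly_le_exp N
  have ha := half_pos' he
  obtain ⟨D, hD⟩ : ∃ D : ℝ, D = (1 / 2) ^ ((e : ℝ) / 2) / Real.Gamma ((e : ℝ) / 2) := ⟨_, rfl⟩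
  have hD0 : 0 ≤ D := by
    rw [hD]
    have := Real.Gamma_pos_of_pos ha
    positivity
  have h1 : IntegrableOn (fun y : ℝ => (|C| * K * D) *
      (y ^ ((e : ℝ) / 2 - 1) * Real.exp (-(1 / 4) * y ^ (1 : ℝ)))) (Set.Ioi 0) :=
    (integrableOn_rpow_mul_exp_neg_mul_rpow (by linarith) zero_lt_one (by norm_num)).const_mul _
  have hm : Measurable (dens e) := by
    unfold dens
    fun_prop
  refine Integrable.mono' h1 (hc.measurable.mul hm).aestronglyMeasurable ?_
  rw [ae_restrict_iff' measurableSet_Ioi]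
  refine Filter.Eventually.of_forall fun y hy => ?_
  have hy0 : (0 : ℝ) < y := hy
  have hp : 0 ≤ y ^ ((e : ℝ) / 2 - 1) := Real.rpow_nonneg hy0.le _
  have hdn : dens e y = D * y ^ ((e : ℝ) / 2 - 1) * Real.exp (-(y / 2)) := by
    rw [hD]; rfl
  have hd0 : 0 ≤ dens e y := by
    rw [hdn]; positivity
  rw [Real.norm_eq_abs, abs_mul, abs_of_nonneg hd0, Real.rpow_one]
  have h2 : |φ y| ≤ |C| * (K * Real.exp (y / 4)) := by
    refine (hb y).trans ?_
    refine (mul_le_mul_of_nonneg_right (le_abs_self C) (by positivity)).trans ?_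
    exact mul_le_mul_of_nonneg_left (hK y hy0.le) (abs_nonneg _)
  refine (mul_le_mul_of_nonneg_right h2 hd0).trans (le_of_eq ?_)
  rw [hdn]
  have h3 : Real.exp (y / 4) * Real.exp (-(y / 2)) = Real.exp (-(1 / 4) * y) := by
    rw [← Real.exp_add]
    congr 1
    ring
  rw [← h3]
  ring

theorem nu_int : S_nu_int := by
  intro e φ hφ
  rcases Nat.eq_zero_or_pos e with rfl | he
  · have h0 : nu 0 = Measure.dirac 0 := if_pos rfl
    rw [h0]
    exact integrable_dirac enorm_lt_top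
  · rw [nu_pos he]
    unfold gammaMeasure
    rw [integrable_withDensity_iff_integrable_smul' (meas_pdf _ _) (pdf_lt_top _ _)]
    have h1 : IntegrableOn (fun y => (gammaPDF ((e : ℝ) / 2) (1 / 2) y).toReal • φ y)
        (Set.Ici 0) := by
      rw [integrableOn_Ici_iff_integrableOn_Ioi]
      refine (integrableOn_congr_fun (fun y hy => ?_) measurableSet_Ioi).2 (int_dens hφ he)
      have hy' : (0 : ℝ) < y := hy
      rw [toReal_pdf he y, pdf_eq hy', smul_eq_mul, mul_comm]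
    refine (integrableOn_iff_integrable_of_support_subset ?_).1 h1
    intro y hy
    by_contra h
    have hy' : y < 0 := by
      by_contra h'
      exact h (not_lt.1 h')
    apply hy
    have h0 : gammaPDF ((e : ℝ) / 2) (1 / 2) y = 0 := gammaPDF_of_neg hy'
    have h1 : (gammaPDF ((e : ℝ) / 2) (1 / 2) y).toReal • φ y = 0 := by
      rw [h0]; simp
    exact h1

theorem dens_add_two {e : ℕ} (he : 1 ≤ e) {y : ℝ} (hy : 0 < y) :
    y * dens e y = e * dens (e + 2) y := by
  have ha := half_pos' he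
  have h1 : ((e + 2 : ℕ) : ℝ) / 2 = (e : ℝ) / 2 + 1 := by
    push_cast
    ring
  unfold dens
  rw [h1, Real.Gamma_add_one ha.ne', Real.rpow_add_one (by norm_num : (1 / 2 : ℝ) ≠ 0)]
  have h2 : y ^ ((e : ℝ) / 2 + 1 - 1) = y ^ ((e : ℝ) / 2 - 1) * y := by
    have : (e : ℝ) / 2 + 1 - 1 = ((e : ℝ) / 2 - 1) + 1 := by ring
    rw [this, Real.rpow_add_one hy.ne']
  rw [h2]
  have hG := (Real.Gamma_pos_of_pos ha).ne'
  have he' : (e : ℝ) ≠ 0 := by
    have : (1 : ℝ) ≤ e := by exact_mod_cast he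
    linarith
  field_simp

theorem nu_bias : S_nu_bias := by
  intro e he φ
  rw [nu_dens e he, nu_dens (e + 2) (by omega), ← integral_const_mul]
  refine setIntegral_congr_fun measurableSet_Ioi fun y hy => ?_
  have h := dens_add_two he (show (0 : ℝ) < y from hy)
  calc y * φ y * dens e y = φ y * (y * dens e y) := by ring
    _ = φ y * (e * dens (e + 2) y) := by rw [h]
    _ = e * (φ y * dens (e + 2) y) := by ring

theorem cpg_aff {φ : ℝ → ℝ} (hφ : CPG φ) (z v : ℝ) : CPG (fun y => φ (z + v * y)) := by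
  obtain ⟨hc, C, N, hb⟩ := hφ
  refine ⟨hc.comp (by fun_prop), |C| * (1 + 2 * z ^ 2 + 2 * v ^ 2) ^ N, N, fun y => ?_⟩
  have h1 : 1 + (z + v * y) ^ 2 ≤ (1 + 2 * z ^ 2 + 2 * v ^ 2) * (1 + y ^ 2) := by
    nlinarith [sq_nonneg (z - v * y), sq_nonneg (z * y), sq_nonneg v, sq_nonneg y]
  have h2 : (1 + (z + v * y) ^ 2) ^ N ≤ ((1 + 2 * z ^ 2 + 2 * v ^ 2) * (1 + y ^ 2)) ^ N :=
    pow_le_pow_left₀ (T_pos _).le h1 N
  rw [mul_pow] at h2
  refine (hb _).trans ?_
  refine (mul_le_mul_of_nonneg_right (le_abs_self C) (pow_nonneg (T_pos _).le _)).trans ?_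
  rw [mul_assoc]
  exact mul_le_mul_of_nonneg_left h2 (abs_nonneg _)

theorem dens_two (y : ℝ) : dens 2 y = 1 / 2 * Real.exp (-(y / 2)) := by
  unfold dens
  norm_num

theorem nu_ibp : S_nu_ibp := by
  intro φ φ' hd hφ hφ' z v
  rw [nu_dens 2 (by norm_num), nu_dens 2 (by norm_num)]
  have i1 := int_dens (cpg_aff hφ z v) (e := 2) (by norm_num)
  have i2 := int_dens (cpg_aff hφ' z v) (e := 2) (by norm_num)
  have hderiv : ∀ y : ℝ, HasDerivAt (fun y => φ (z + v * y) * Real.exp (-(y / 2)))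
      (2 * v * (φ' (z + v * y) * dens 2 y) - φ (z + v * y) * dens 2 y) y := by
    intro y
    have h1 : HasDerivAt (fun y : ℝ => z + v * y) v y := by
      have := ((hasDerivAt_id y).const_mul v).const_add z
      simpa using this
    have h2 : HasDerivAt (fun y : ℝ => φ (z + v * y)) (φ' (z + v * y) * v) y :=
      (hd (z + v * y)).comp y h1
    have h3 : HasDerivAt (fun y : ℝ => -(y / 2)) (-(1 / 2)) y :=
      ((hasDerivAt_id y).div_const 2).neg
    have h4 := h2.mul h3.exp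
    refine h4.congr_deriv ?_
    rw [dens_two]
    ring
  have htend : Filter.Tendsto (fun y => φ (z + v * y) * Real.exp (-(y / 2))) Filter.atTop
      (nhds 0) := by
    obtain ⟨hc, C, N, hb⟩ := cpg_aff hφ z v
    obtain ⟨K, hK0, hK⟩ := poly_le_exp N
    have h5 : Filter.Tendsto (fun y : ℝ => |C| * K * Real.exp (-(y / 4))) Filter.atTop (nhds 0) := by
      have h6 : Filter.Tendsto (fun y : ℝ => -(y / 4)) Filter.atTop Filter.atBot :=
        Filter.tendsto_neg_atTop_atBot.comp (Filter.tendsto_id.atTop_div_const (by norm_num))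
      have h7 := (Real.tendsto_exp_atBot.comp h6).const_mul (|C| * K)
      rw [mul_zero] at h7
      exact h7
    refine squeeze_zero_norm' ?_ h5
    filter_upwards [Filter.eventually_ge_atTop (0 : ℝ)] with y hy
    rw [Real.norm_eq_abs, abs_mul, abs_of_pos (Real.exp_pos _)]
    have h8 : |φ (z + v * y)| ≤ |C| * (K * Real.exp (y / 4)) := by
      refine (hb y).trans ?_
      refine (mul_le_mul_of_nonneg_right (le_abs_self C) (pow_nonneg (T_pos _).le _)).trans ?_
      exact mul_le_mul_of_nonneg_left (hK y hy) (abs_nonneg _)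
    refine (mul_le_mul_of_nonneg_right h8 (Real.exp_pos _).le).trans (le_of_eq ?_)
    have h9 : Real.exp (y / 4) * Real.exp (-(y / 2)) = Real.exp (-(y / 4)) := by
      rw [← Real.exp_add]
      congr 1
      ring
    rw [← h9]
    ring
  have h1 := integral_Ioi_of_hasDerivAt_of_tendsto (a := 0)
    (hderiv 0).continuousAt.continuousWithinAt (fun y _ => hderiv y)
    ((i2.const_mul (2 * v)).sub i1) htend
  have h2 : ∫ y in Set.Ioi (0 : ℝ), (2 * v * (φ' (z + v * y) * dens 2 y) - φ (z + v * y) * dens 2 y)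
      = 2 * v * (∫ y in Set.Ioi (0 : ℝ), φ' (z + v * y) * dens 2 y) -
        ∫ y in Set.Ioi (0 : ℝ), φ (z + v * y) * dens 2 y := by
    rw [integral_sub (i2.const_mul (2 * v)) i1, integral_const_mul]
  rw [h2] at h1
  simp only [mul_zero, add_zero, zero_div, neg_zero, Real.exp_zero, mul_one] at h1
  linarith

end Pool.Agent.R68.GQ
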